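import Pool.Agent.H918.G.Stm

/-!
# PROJECT PF: a function without pole at the place `c` is bounded near infinity
-/

set_option autoImplicit false

open Polynomial FF Pool.Agent.W603.LV Filter Topology Metric Module IsDedekindDomain IntermediateField
open scoped Polynomial.Bivariate IntermediateField

namespace Pool.Agent.H918.PF

namespace H828

section core

variable {k A L : Type*} (K0 : Type*) [Field k] [CommRing A] [IsDedekindDomain A] [Algebra k A]
  [Field K0] [Algebra A K0] [IsFractionRing A K0] [Field L] [Algebra K0 L] [Algebra A L]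
  [IsScalarTower A K0 L] [FiniteDimensional K0 L] [Algebra.IsSeparable K0 L]
  [Algebra k L] [IsScalarTower k A L]

include K0 in
theorem int_core (π : A) (hπ : π ≠ 0) (hmax : (Ideal.span {π}).IsMaximal) (u : L)
    (hu : ∀ w : Place k L, (∀ a : A, w.Reg (algebraMap A L a)) →
      0 < w.ord (algebraMap A L π) → w.Reg u) :
    ∃ s : A, s ∉ Ideal.span {π} ∧ IsIntegral A (algebraMap A L s * u) := by
  classical
  by_cases hu0 : u = 0
  · refine ⟨1, fun h => hmax.ne_top ((Ideal.eq_top_iff_one _).2 h), ?_⟩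
    rw [hu0, mul_zero]
    exact isIntegral_zero
  by_contra hcon
  push Not at hcon
  let p : Ideal A := Ideal.span {π}
  have hp0 : p ≠ ⊥ := by
    simp [p, hπ]
  have hpp : p.IsPrime := hmax.isPrime
  let B := integralClosure A L
  have : IsDedekindDomain B := integralClosure.isDedekindDomain A K0 L
  have : IsFractionRing B L := integralClosure.isFractionRing_of_finite_extension K0 L
  have hsc : IsScalarTower k B L := by
    refine IsScalarTower.of_algebraMap_eq fun c => ?_
    rw [IsScalarTower.algebraMap_apply k A B, ← IsScalarTower.algebraMap_apply A B L,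
      ← IsScalarTower.algebraMap_apply k A L]
  have hinj : Function.Injective (algebraMap A L) := by
    rw [IsScalarTower.algebraMap_eq A K0 L]
    exact (algebraMap K0 L).injective.comp (IsFractionRing.injective A K0)
  have hinj' : Function.Injective (algebraMap A B) := by
    intro a b h
    apply hinj
    rw [IsScalarTower.algebraMap_apply A B L, IsScalarTower.algebraMap_apply A B L, h]
  let I : Ideal B :=
    { carrier := {b | IsIntegral A ((b : L) * u)}
      add_mem' := by
        intro a b ha hb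
        change IsIntegral A (((a + b : B) : L) * u)
        rw [show ((a + b : B) : L) = (a : L) + b from rfl, add_mul]
        exact IsIntegral.add ha hb
      zero_mem' := by
        change IsIntegral A (((0 : B) : L) * u)
        rw [show ((0 : B) : L) = 0 from rfl, zero_mul]
        exact isIntegral_zero
      smul_mem' := by
        intro a b hb
        change IsIntegral A (((a * b : B) : L) * u)
        rw [show ((a * b : B) : L) = (a : L) * b from rfl, mul_assoc]
        exact IsIntegral.mul a.2 hb }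
  have hI : I.comap (algebraMap A B) ≤ p := by
    intro s hs
    by_contra hsp
    exact hcon s hsp hs
  obtain ⟨Q, hIQ, hQ, hQp⟩ := Ideal.exists_ideal_over_prime_of_isIntegral p I hI
  have hQ0 : Q ≠ ⊥ := by
    rintro rfl
    apply hp0
    rw [← hQp, ← RingHom.ker_eq_comap_bot, (RingHom.injective_iff_ker_eq_bot _).1 hinj']
  let Q' : HeightOneSpectrum B := ⟨Q, hQ, hQ0⟩
  have hreg : ∀ a : A, (placeOf (k := k) (L := L) Q').Reg (algebraMap A L a) := by
    intro a
    rw [IsScalarTower.algebraMap_apply A B L]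
    exact placeOf_reg _ _
  have hpos : 0 < (placeOf (k := k) (L := L) Q').ord (algebraMap A L π) := by
    have h1 : (placeOf (k := k) (L := L) Q').red (algebraMap A L π) = 0 := by
      rw [IsScalarTower.algebraMap_apply A B L, placeOf_red_eq_zero]
      change algebraMap A B π ∈ Q
      rw [← Ideal.mem_comap, hQp]
      exact Ideal.mem_span_singleton_self π
    rw [Place.red_eq_zero_iff _ (hreg π)] at h1
    rcases h1 with h1 | h1
    · exact absurd (hinj (h1.trans (map_zero _).symm)) hπ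
    · exact h1
  have hru := hu _ hreg hpos
  obtain ⟨n, d, hnd⟩ := Q'.exists_primeCompl_mul_eq_of_integer u
    ((placeOf_nonneg (k := k) Q' hu0).1 ((Place.reg_iff _ hu0).1 hru))
  apply d.2
  apply hIQ
  change IsIntegral A (((d : B) : L) * u)
  rw [mul_comm]
  have h2 : u * ((d : B) : L) = (n : L) := hnd
  rw [h2]
  exact n.2

end core

/-- integrality at the zeros of `t` -/
theorem int_ff {k K : Type*} [Field k] [Field K] [Algebra k K] [CharZero k] [h : IsFF k K] {t : K}
    (ht : Transcendental k t) (u : K) (hu : ∀ w : Place k K, 0 < w.ord t → w.Reg u) :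
    ∃ (σ : k[X]) (F : k[X][Y]), σ.eval 0 ≠ 0 ∧ F.Monic ∧
      eval₂ (aeval t : k[X] →ₐ[k] K).toRingHom (aeval t σ * u) F = 0 := by
  open scoped algebraAdjoinAdjoin in
  let A := Algebra.adjoin k {t}
  let e := Polynomial.algEquivOfTranscendental k t ht
  have hpid : IsPrincipalIdealRing A := IsPrincipalIdealRing.of_surjective e.toRingEquiv e.surjective
  have hded : IsDedekindDomain A := inferInstance
  have hfin := IsFF.finite ht
  have hchar : CharZero k⟮t⟯ := charZero_of_injective_algebraMap (algebraMap k k⟮t⟯).injective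
  have hsep : Algebra.IsSeparable k⟮t⟯ K := inferInstance
  let π : A := ⟨t, Algebra.self_mem_adjoin_singleton k t⟩
  have ht0 : t ≠ 0 := by
    rintro rfl
    exact ht (isAlgebraic_zero)
  have hπ : π ≠ 0 := by
    intro h; exact ht0 (congrArg Subtype.val h)
  have heπ : e Polynomial.X = π := Polynomial.algEquivOfTranscendental_apply_X k t ht
  have hmax : (Ideal.span {π}).IsMaximal := by
    have h1 : (Ideal.span {(Polynomial.X : Polynomial k)}).IsMaximal := by
      have := PrincipalIdealRing.isMaximal_of_irreducible (Polynomial.irreducible_X (R := k))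
      exact this
    have h2 : Ideal.span {π} = Ideal.map e.toRingEquiv.toRingHom (Ideal.span {(Polynomial.X : Polynomial k)}) := by
      rw [Ideal.map_span, Set.image_singleton]
      congr 2
      exact heπ.symm
    rw [h2]
    exact Ideal.map_isMaximal_of_equiv e.toRingEquiv
  obtain ⟨s, hs, hint⟩ := int_core (k := k) (A := A) (L := K) k⟮t⟯ π hπ hmax u
    (fun w _ hw => hu w hw)
  have he : ∀ q : k[X], algebraMap A K (e q) = aeval t q := by
    intro q
    have h1 : ((Algebra.ofId A K).restrictScalars k).comp e.toAlgHom = (aeval t : k[X] →ₐ[k] K) := by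
      apply Polynomial.algHom_ext
      change algebraMap A K (e X) = aeval t X
      rw [heπ, aeval_X]
      rfl
    exact DFunLike.congr_fun h1 q
  obtain ⟨F0, hF0, hF0'⟩ := hint
  refine ⟨e.symm s, F0.map e.symm.toRingEquiv.toRingHom, ?_, hF0.map _, ?_⟩
  · intro h0
    apply hs
    rw [Ideal.mem_span_singleton, ← heπ]
    have h1 : (X : k[X]) ∣ e.symm s := by
      rw [X_dvd_iff, coeff_zero_eq_eval_zero]
      exact h0
    have h2 := map_dvd e h1
    rwa [e.apply_symm_apply] at h2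
  · rw [eval₂_map, ← he, e.apply_symm_apply]
    have h3 : (aeval t : k[X] →ₐ[k] K).toRingHom.comp e.symm.toRingEquiv.toRingHom =
        algebraMap A K := by
      ext a
      change aeval t (e.symm a) = algebraMap A K a
      rw [← he, e.apply_symm_apply]
    rw [h3]
    exact hF0'

section point

variable {L : Type} [Field L] [Algebra ℂ L] {c : Place ℂ L} {ev : ℂ[X][Y] →ₐ[ℂ] L} {P : ℂ[X][Y]}

/-- the pairs of a function which is regular at the point `(z, y)` and its value -/
def GP (ev : ℂ[X][Y] →ₐ[ℂ] L) (z y : ℂ) : Subalgebra ℂ (L × ℂ) where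
  carrier := {x | ∃ (R : ℂ[X][Y]) (S : ℂ[X]), S.eval z ≠ 0 ∧ x.1 * ev (C S) = ev R ∧
    x.2 * S.eval z = evalEval z y R}
  mul_mem' := by
    rintro a b ⟨R1, S1, h1, h2, h3⟩ ⟨R2, S2, k1, k2, k3⟩
    refine ⟨R1 * R2, S1 * S2, ?_, ?_, ?_⟩
    · rw [eval_mul]; exact mul_ne_zero h1 k1
    · rw [C_mul, map_mul, map_mul, ← h2, ← k2, Prod.fst_mul]; ring
    · rw [eval_mul, evalEval_mul, ← h3, ← k3, Prod.snd_mul]; ring
  add_mem' := by
    rintro a b ⟨R1, S1, h1, h2, h3⟩ ⟨R2, S2, k1, k2, k3⟩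
    refine ⟨R1 * C S2 + R2 * C S1, S1 * S2, ?_, ?_, ?_⟩
    · rw [eval_mul]; exact mul_ne_zero h1 k1
    · rw [C_mul, map_add, map_mul, map_mul, map_mul, ← h2, ← k2, Prod.fst_add]; ring
    · rw [eval_mul, evalEval_add, evalEval_mul, evalEval_mul, evalEval_C, evalEval_C, ← h3, ← k3,
        Prod.snd_add]; ring
  algebraMap_mem' := by
    intro r
    refine ⟨C (C r), 1, ?_, ?_, ?_⟩
    · rw [eval_one]; exact one_ne_zero
    · rw [C_1, map_one, mul_one]
      change algebraMap ℂ L r = ev (algebraMap ℂ ℂ[X][Y] r)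
      rw [AlgHom.commutes]
    · rw [eval_one, mul_one, evalEval_C, eval_C]
      rfl

theorem GP_zero (hM : Model c ev P) {z y v : ℂ} (hP : evalEval z y P = 0)
    (h : ((0 : L), v) ∈ GP ev z y) : v = 0 := by
  obtain ⟨R, S, h1, h2, h3⟩ := h
  rw [zero_mul] at h2
  obtain ⟨R', rfl⟩ := (hM.ker R).1 h2.symm
  rw [evalEval_mul, hP, zero_mul] at h3
  exact (mul_eq_zero.1 h3).resolve_right h1

/-- polynomial relations pass to the values -/
theorem GP_rel (hM : Model c ev P) {z y v x : ℂ} {h t : L} (hP : evalEval z y P = 0)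
    (ht : (t, x) ∈ GP ev z y) (hh : (h, v) ∈ GP ev z y) (σ : ℂ[X]) (F : ℂ[X][Y])
    (hF : eval₂ (aeval t : ℂ[X] →ₐ[ℂ] L).toRingHom (aeval t σ * h) F = 0) :
    (F.map (evalRingHom x)).eval (σ.eval x * v) = 0 := by
  let t' : GP ev z y := ⟨(t, x), ht⟩
  let h' : GP ev z y := ⟨(h, v), hh⟩
  let w : GP ev z y := eval₂ (aeval t' : ℂ[X] →ₐ[ℂ] GP ev z y).toRingHom (aeval t' σ * h') F
  have key : ∀ (R : Type) [CommRing R] [Algebra ℂ R] (φ : GP ev z y →ₐ[ℂ] R),
      φ w = eval₂ (aeval (φ t') : ℂ[X] →ₐ[ℂ] R).toRingHom (aeval (φ t') σ * φ h') F := by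
    intro R _ _ φ
    have e1 : φ.toRingHom.comp (aeval t' : ℂ[X] →ₐ[ℂ] GP ev z y).toRingHom =
        (aeval (φ t') : ℂ[X] →ₐ[ℂ] R).toRingHom := by
      ext a
      · change φ (aeval t' (C a)) = aeval (φ t') (C a)
        rw [aeval_C, aeval_C, AlgHom.commutes]
      · change φ (aeval t' X) = aeval (φ t') X
        rw [aeval_X, aeval_X]
    change φ.toRingHom w = _
    rw [Polynomial.hom_eval₂, e1]
    congr 1
    change φ (aeval t' σ * h') = _
    rw [map_mul, ← aeval_algHom_apply]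
  have k1 := key L ((AlgHom.fst ℂ L ℂ).comp (GP ev z y).val)
  have k2 := key ℂ ((AlgHom.snd ℂ L ℂ).comp (GP ev z y).val)
  change (w : L × ℂ).1 = eval₂ (aeval t : ℂ[X] →ₐ[ℂ] L).toRingHom (aeval t σ * h) F at k1
  change (w : L × ℂ).2 = eval₂ (aeval x : ℂ[X] →ₐ[ℂ] ℂ).toRingHom (aeval x σ * v) F at k2
  rw [hF] at k1
  have k3 : ((0 : L), (w : L × ℂ).2) ∈ GP ev z y := by
    rw [← k1]
    exact w.2
  have k4 := GP_zero hM hP k3
  rw [k4] at k2
  rw [eval_map]
  exact k2.symm

end point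

/-- bound for the roots of a monic polynomial -/
theorem root_bound {q : ℂ[X]} (hq : q.Monic) {M : ℝ} (hM : 0 ≤ M)
    (h : ∀ i < q.natDegree, ‖q.coeff i‖ ≤ M) {w : ℂ} (hw : q.eval w = 0) : ‖w‖ ≤ M + 1 := by
  have h1 := IsRoot.norm_lt_cauchyBound hq.ne_zero (a := w) hw
  have h2 : cauchyBound q ≤ ⟨M, hM⟩ + 1 := by
    unfold cauchyBound
    rw [hq.leadingCoeff, nnnorm_one, div_one]
    gcongr
    refine Finset.sup_le fun i hi => ?_
    exact h i (Finset.mem_range.1 hi)
  have h3 := (h1.trans_le h2).le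
  exact_mod_cast h3

/-- the coefficients are bounded on the unit ball -/
theorem coeff_bd (F : ℂ[X][Y]) : ∃ M : ℝ, 0 ≤ M ∧ ∀ i < F.natDegree, ∀ x : ℂ, ‖x‖ ≤ 1 →
    ‖(F.coeff i).eval x‖ ≤ M := by
  have h1 : ∀ i, ∃ M : ℝ, 0 ≤ M ∧ ∀ x : ℂ, ‖x‖ ≤ 1 → ‖(F.coeff i).eval x‖ ≤ M := by
    intro i
    obtain ⟨M, hM⟩ := (isCompact_closedBall (0 : ℂ) 1).exists_bound_of_continuousOn
      (F.coeff i).continuous.continuousOn
    refine ⟨max M 0, le_max_right _ _, fun x hx => (hM x ?_).trans (le_max_left _ _)⟩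
    rw [mem_closedBall_zero_iff]
    exact hx
  choose M hM0 hM using h1
  refine ⟨∑ i ∈ Finset.range F.natDegree, M i, Finset.sum_nonneg fun i _ => hM0 i, ?_⟩
  intro i hi x hx
  exact (hM i x hx).trans (Finset.single_le_sum (f := M) (fun j _ => hM0 j) (Finset.mem_range.2 hi))

end H828

variable {L : Type} [Field L] [Algebra ℂ L] {c : Place ℂ L} {ev : ℂ[X][Y] →ₐ[ℂ] L} {P : ℂ[X][Y]}

/-- PF-BINF: a function without pole at the place `c`, which is the only place over `Z = ∞`, is
bounded near infinity (it is integral over the local ring of `ℂ(Z)` at infinity). -/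
theorem bound_inf [IsFF ℂ L] (hM : Model c ev P) {h : L} (hh : Ge c 0 h) :
    ∃ K r : ℝ, ∀ (R : ℂ[X][Y]) (S : ℂ[X]), h * ev (C S) = ev R → ∀ z y : ℂ, r ≤ ‖z‖ →
      evalEval z y P = 0 → S.eval z ≠ 0 → ‖evalEval z y R‖ ≤ K * ‖S.eval z‖ := by
  have hZ0 : ev (C X) ≠ 0 := by
    intro h0
    have h1 := hM.pole
    rw [h0, c.ord_zero] at h1
    exact lt_irrefl _ h1
  obtain ⟨t, ht⟩ : ∃ t : L, t = (ev (C X))⁻¹ := ⟨_, rfl⟩
  have htr : Transcendental ℂ t := by
    apply c.transcendental_of_ord_ne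
    rw [ht, c.ord_inv]
    have := hM.pole
    omega
  have hreg : ∀ w : Place ℂ L, 0 < w.ord t → w.Reg h := by
    intro w hw
    have hwc : w = c := by
      by_contra hne
      have h1 := hM.reg w hne
      rw [ht, w.ord_inv] at hw
      rcases h1 with h1 | h1
      · exact hZ0 h1
      · omega
    rw [hwc]
    exact hh
  obtain ⟨σ, F, hσ, hFm, hF⟩ := H828.int_ff htr h hreg
  obtain ⟨M, hM0, hMb⟩ := H828.coeff_bd F
  have hσpos : 0 < ‖σ.eval 0‖ := norm_pos_iff.2 hσ
  -- `σ` near `0`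
  obtain ⟨δ, hδ, hδ'⟩ : ∃ δ : ℝ, 0 < δ ∧ ∀ x : ℂ, ‖x‖ ≤ δ → ‖σ.eval 0‖ / 2 ≤ ‖σ.eval x‖ := by
    have h1 : ContinuousAt (fun x : ℂ => ‖σ.eval x‖) 0 := σ.continuous.norm.continuousAt
    have h2 : ∀ᶠ x in 𝓝 (0 : ℂ), ‖σ.eval 0‖ / 2 < ‖σ.eval x‖ :=
      h1.eventually_const_lt (by linarith)
    obtain ⟨ε, hε, hε'⟩ := Metric.eventually_nhds_iff.1 h2
    refine ⟨ε / 2, by linarith, fun x hx => (hε' ?_).le⟩
    rw [dist_zero_right]
    linarith
  refine ⟨(M + 1) / (‖σ.eval 0‖ / 2), max 1 (1 / δ), ?_⟩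
  intro R S hRS z y hz hP hS
  have hz1 : 1 ≤ ‖z‖ := (le_max_left _ _).trans hz
  have hz0 : z ≠ 0 := by
    intro h0
    rw [h0, norm_zero] at hz1
    linarith
  have hx1 : ‖(1 / z : ℂ)‖ ≤ 1 := by
    rw [norm_div, norm_one]
    exact (div_le_one (by linarith)).2 hz1
  have hxδ : ‖(1 / z : ℂ)‖ ≤ δ := by
    rw [norm_div, norm_one]
    have h1 : 1 / δ ≤ ‖z‖ := (le_max_right _ _).trans hz
    rw [div_le_iff₀ hδ] at h1
    rw [div_le_iff₀ (by linarith)]
    linarith
  have m1 : (t, (1 / z : ℂ)) ∈ H828.GP ev z y := by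
    refine ⟨1, X, ?_, ?_, ?_⟩
    · rw [eval_X]; exact hz0
    · rw [ht, map_one]
      exact inv_mul_cancel₀ hZ0
    · rw [eval_X, evalEval_one]
      exact div_mul_cancel₀ _ hz0
  have m2 : (h, evalEval z y R / S.eval z) ∈ H828.GP ev z y :=
    ⟨R, S, hS, hRS, div_mul_cancel₀ _ hS⟩
  have hroot := H828.GP_rel hM hP m1 m2 σ F hF
  have hq : (F.map (evalRingHom (1 / z : ℂ))).Monic := hFm.map _
  have hb : ‖σ.eval (1 / z) * (evalEval z y R / S.eval z)‖ ≤ M + 1 := by
    refine H828.root_bound hq hM0 ?_ hroot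
    intro i hi
    rw [coeff_map, coe_evalRingHom]
    refine hMb i ?_ _ hx1
    rwa [hFm.natDegree_map] at hi
  rw [norm_mul, norm_div] at hb
  have h5 := hδ' _ hxδ
  have hSpos : 0 < ‖S.eval z‖ := norm_pos_iff.2 hS
  have h6 : ‖σ.eval 0‖ / 2 * (‖evalEval z y R‖ / ‖S.eval z‖) ≤ M + 1 :=
    (mul_le_mul_of_nonneg_right h5 (by positivity)).trans hb
  rw [mul_comm, ← le_div_iff₀ (by positivity), div_le_iff₀ hSpos] at h6
  exact h6

end Pool.Agent.H918.PF
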